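import Pool.Agent.Lib.MP_3e329f_nt.Except

set_option autoImplicit false

/-!
# Few exceptions in certain residue classes

There is a constant `C` such that for all `X ≥ 2` and all `m ≥ 1` with `m ∣ 2^(m+2) (4^m - 1)` at
most `C ((X/m) ((log X)/m + 1/log(X/m + 2)) + log X)` of the (about `X/m`) integers `0 ≤ k < X` with
`k ≡ 2^(m+2) (mod m)` are not of the form `2^(n+2) mod n`, `n ≥ 1`. So almost all of them are values
if `m / log X` and `X / (m log X)` are large. For `m = 2^j` the class is the one of the multiples of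
`2^j`, for `m = 3^j` it is the class of `-4` modulo `3^j`.

Idea. If `k ≡ 2^(m+2) (mod m)` and `p > k / m` is an odd prime factor of `2^(m+2) - k` not dividing
`m`, then `n = m p` has `2^(n+2) mod n = k` (note that `2 m ∣ m (p - 1)`). For the `k < X` in the
class the numbers `(2^(m+2) - k) / m` are consecutive integers of size about `2^m`; there are about
`K = X / m` of them. The product of these numbers divides `K!` times a binomial coefficient, whose
prime power factors are at most `2^(m+2)`. So the part of this product that is composed of primes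
`≤ K` and of prime factors of `m` is at most `K! * 2^((m+2)(π(K) + ω(m)))`, and this bounds the
number of factors which have no other prime factor by about
`2 (K log K / (m log 2) + π(K) + ω(m))`.
-/

namespace Pool.Agent.Results.MP_3e329f_nt.FewExceptionsInClasses

/-- `a(n) = 2^(n+2) mod n`, the least nonnegative remainder. -/
def a (n : ℕ) : ℕ := 2 ^ (n + 2) % n

/-- **Theorem.** There is `C` such that for all `X ≥ 2` and all `m ≥ 1` with
`m ∣ 2^(m+2) (4^m - 1)`, at most `C ((X/m) ((log X)/m + 1/log(X/m + 2)) + log X)` of the integers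
`k < X` with `k ≡ 2^(m+2) (mod m)` are not of the form `k = 2^(n+2) mod n` with `n ≥ 1`. -/
theorem result : ∃ C : ℝ, ∀ X m : ℕ, 2 ≤ X → 1 ≤ m → m ∣ 2 ^ (m + 2) * (4 ^ m - 1) →
    ({k : ℕ | k < X ∧ k ≡ 2 ^ (m + 2) [MOD m] ∧ ¬ ∃ n : ℕ, 1 ≤ n ∧ a n = k}.ncard : ℝ) ≤
      C * ((X / m) * (Real.log X / m + 1 / Real.log (X / m + 2)) + Real.log X) := by
  classical
  obtain ⟨C, hC⟩ := Pool.Agent.Lib.MP_3e329f_nt.Cls.except
  refine ⟨C, fun X m hX hm hg => ?_⟩
  have hGood : Pool.Agent.Lib.MP_3e329f_nt.Cls.Good m := by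
    unfold Pool.Agent.Lib.MP_3e329f_nt.Cls.Good
    apply Nat.ModEq.symm
    rw [Nat.modEq_iff_dvd' (Nat.le_mul_of_pos_left _ (by positivity))]
    have h2 : 4 ^ m * 2 ^ (m + 2) - 2 ^ (m + 2) = 2 ^ (m + 2) * (4 ^ m - 1) := by
      rw [Nat.mul_sub, mul_one, mul_comm]
    rw [h2]
    exact hg
  have h5 : {k : ℕ | k < X ∧ k ≡ 2 ^ (m + 2) [MOD m] ∧ ¬ ∃ n : ℕ, 1 ≤ n ∧ a n = k} =
      ((Pool.Agent.Lib.MP_3e329f_nt.Cls.Ex X m : Finset ℕ) : Set ℕ) := by
    ext k
    rw [Finset.mem_coe, Pool.Agent.Lib.MP_3e329f_nt.Cls.Ex, Finset.mem_filter, Finset.mem_range]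
    rfl
  rw [h5, Set.ncard_coe_finset]
  exact hC X m hX hm hGood

end Pool.Agent.Results.MP_3e329f_nt.FewExceptionsInClasses
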