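import Mathlib

/-!
# Multiples by powers of two are values of `2^(n+2) mod n`

Let `k ≥ 1` and `C = k² + 4 k + 1`.  For all `j` with `log₂ J + C < j ≤ J` the number `2^j k` is of
the form `2^(n+2) mod n`, with at most `r(k)` exceptions, where `r(k)` is the number of primes
`p ≤ k` not dividing `2 k`.  (So there is no exception above `log₂ J + C` for `k = 1, 2, 3`.)

If `p > k` is a prime factor of `2^(2^j+2-j) - k`, then `n = 2^j p` has `2^(n+2) mod n = 2^j k`.
If there is no such prime, then all prime factors of `2^(2^j+2-j) - k` are at most `k`, and one of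
them must occur with a very high power; for each prime this happens for at most one `j`, because
the exponents `2^j+2-j` of two such `j` would be congruent modulo a large power of the prime.
-/

namespace Pool.Agent.Results.MP_3e329f_nt.PowerOfTwoMultiples

/-- `a(n) = 2^(n+2) mod n`, the least nonnegative remainder. -/
def a (n : ℕ) : ℕ := 2 ^ (n + 2) % n

/-- The exponent `2^j + 2 - j`. -/
def ex (j : ℕ) : ℕ := 2 ^ j + 2 - j

lemma ex_add (j : ℕ) : ex j + j = 2 ^ j + 2 := by
  have hj : j < 2 ^ j := Nat.lt_two_pow_self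
  unfold ex
  omega

lemma three_le_ex (j : ℕ) : 3 ≤ ex j := by
  have hj : j < 2 ^ j := Nat.lt_two_pow_self
  have := ex_add j
  omega

lemma ex_lt {i j : ℕ} (hi : 1 ≤ i) (hij : i < j) : ex i < ex j := by
  induction j, hij using Nat.le_induction with
  | base =>
    change ex i < ex (i + 1)
    have h1 := ex_add i
    have h2 := ex_add (i + 1)
    have h3 : 2 ^ (i + 1) = 2 * 2 ^ i := by ring
    have h4 : 2 ^ 1 ≤ 2 ^ i := Nat.pow_le_pow_right (by norm_num) hi
    omega
  | succ m hm ih =>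
    have h1 := ex_add m
    have h2 := ex_add (m + 1)
    have h3 : 2 ^ (m + 1) = 2 * 2 ^ m := by ring
    have h4 : 2 ^ 1 ≤ 2 ^ m := Nat.pow_le_pow_right (by norm_num) (by omega)
    omega

lemma half_lt_ex {j : ℕ} (hj : 1 ≤ j) : 2 ^ (j - 1) < ex j := by
  obtain ⟨i, rfl⟩ : ∃ i, j = i + 1 := ⟨j - 1, by omega⟩
  have h1 := ex_add (i + 1)
  have h3 : 2 ^ (i + 1) = 2 * 2 ^ i := by ring
  have h4 : i < 2 ^ i := Nat.lt_two_pow_self
  simp only [Nat.add_sub_cancel]
  omega

lemma value_of_prime {j k p : ℕ} (hp : p.Prime) (hp2 : p ≠ 2) (hk : k < p)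
    (h : 2 ^ ex j ≡ k [MOD p]) : a (2 ^ j * p) = 2 ^ j * k := by
  unfold a
  have hj := ex_add j
  have h1 : 2 ^ (2 ^ j * p + 2) = 2 ^ j * 2 ^ (2 ^ j * (p - 1) + ex j) := by
    rw [← pow_add]
    congr 1
    have : 2 ^ j * p = 2 ^ j * (p - 1) + 2 ^ j := by
      obtain ⟨q, rfl⟩ : ∃ q, p = q + 1 := ⟨p - 1, by have := hp.pos; omega⟩
      simp only [Nat.add_sub_cancel]
      ring
    omega
  rw [h1, Nat.mul_mod_mul_left]
  congr 1
  have h2 : 2 ^ (p - 1) ≡ 1 [MOD p] := by
    have hc : Nat.Coprime 2 p := by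
      rw [Nat.coprime_primes Nat.prime_two hp]
      exact fun h => hp2 h.symm
    have := Nat.ModEq.pow_totient hc
    rwa [Nat.totient_prime hp] at this
  have h3 : 2 ^ (2 ^ j * (p - 1) + ex j) ≡ k [MOD p] := by
    rw [pow_add, mul_comm (2 ^ j) (p - 1), pow_mul]
    have := (h2.pow (2 ^ j)).mul h
    simpa using this
  have h4 : 2 ^ (2 ^ j * (p - 1) + ex j) % p = k % p := h3
  rw [h4, Nat.mod_eq_of_lt hk]

/-- `2^j k` is a value as soon as `2^(2^j+2-j) - k` has a prime factor larger than `k`. -/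
lemma value_of_dvd {j k p : ℕ} (hk1 : 1 ≤ k) (hkN : k < 2 ^ ex j) (hp : p.Prime) (hk : k < p)
    (h : p ∣ 2 ^ ex j - k) : ∃ n, 1 ≤ n ∧ a n = 2 ^ j * k := by
  have hp2 : p ≠ 2 := by
    rintro rfl
    have hk' : k = 1 := by omega
    subst hk'
    have h3 := three_le_ex j
    have h4 : 2 ∣ 2 ^ ex j := dvd_pow_self 2 (by omega)
    omega
  have hmod : 2 ^ ex j ≡ k [MOD p] := ((Nat.modEq_iff_dvd' hkN.le).mpr h).symm
  exact ⟨2 ^ j * p, Nat.mul_pos (by positivity) hp.pos, value_of_prime hp hp2 hk hmod⟩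

lemma pow_le_of_dvd {p d e : ℕ} (hp : p.Prime) (hp2 : p ≠ 2) (hd : 1 ≤ d)
    (h : p ^ e ∣ 2 ^ d - 1) : p ^ e ≤ 2 ^ p * d := by
  have : Fact p.Prime := ⟨hp⟩
  have hodd : Odd p := hp.odd_of_ne_two hp2
  have hc : Nat.Coprime 2 p := by
    rw [Nat.coprime_primes Nat.prime_two hp]
    exact fun h => hp2 h.symm
  have h2 : 2 ^ (p - 1) ≡ 1 [MOD p] := by
    have := Nat.ModEq.pow_totient hc
    rwa [Nat.totient_prime hp] at this
  have hp3 : 3 ≤ p := by
    have := hp.two_le
    omega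
  have hx3 : 1 < 2 ^ (p - 1) := Nat.one_lt_two_pow (by omega)
  have hx1 : p ∣ 2 ^ (p - 1) - 1 := (Nat.modEq_iff_dvd' hx3.le).mp h2.symm
  have hx2 : ¬ p ∣ 2 ^ (p - 1) := by
    intro hh
    have h3 := hp.dvd_of_dvd_pow hh
    have := (Nat.prime_dvd_prime_iff_eq hp Nat.prime_two).mp h3
    exact hp2 this
  have h5 : padicValNat p ((2 ^ (p - 1)) ^ d - 1 ^ d) =
      padicValNat p (2 ^ (p - 1) - 1) + padicValNat p d :=
    padicValNat.pow_sub_pow hodd hx3 hx1 hx2 (by omega)
  have h6 : 2 ^ d - 1 ∣ (2 ^ (p - 1)) ^ d - 1 ^ d := by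
    have h8 : (2 ^ (p - 1)) ^ d = (2 ^ d) ^ (p - 1) := by
      rw [← pow_mul, ← pow_mul, mul_comm]
    have h9 := Nat.sub_dvd_pow_sub_pow (2 ^ d) 1 (p - 1)
    rw [h8, one_pow]
    rwa [one_pow] at h9
  have hne : (2 ^ (p - 1)) ^ d - 1 ^ d ≠ 0 := by
    rw [one_pow]
    have : 1 < (2 ^ (p - 1)) ^ d := Nat.one_lt_pow (by omega) hx3
    omega
  have h7 : e ≤ padicValNat p ((2 ^ (p - 1)) ^ d - 1 ^ d) :=
    (padicValNat_dvd_iff_le hne).mp (h.trans h6)
  rw [h5] at h7
  calc p ^ e ≤ p ^ (padicValNat p (2 ^ (p - 1) - 1) + padicValNat p d) :=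
        Nat.pow_le_pow_right hp.pos h7
    _ = p ^ padicValNat p (2 ^ (p - 1) - 1) * p ^ padicValNat p d := pow_add _ _ _
    _ ≤ (2 ^ (p - 1) - 1) * d :=
        Nat.mul_le_mul (Nat.le_of_dvd (by omega) pow_padicValNat_dvd)
          (Nat.le_of_dvd (by omega) pow_padicValNat_dvd)
    _ ≤ 2 ^ p * d := by
        apply Nat.mul_le_mul_right
        have : 2 ^ (p - 1) ≤ 2 ^ p := Nat.pow_le_pow_right (by norm_num) (by omega)
        omega

lemma ex_le {j J : ℕ} (hj : j ≤ J) : ex j ≤ 2 ^ (J + 2) := by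
  have h1 := ex_add j
  have h2 : 2 ^ j ≤ 2 ^ J := Nat.pow_le_pow_right (by norm_num) hj
  have h3 : 2 ^ (J + 2) = 4 * 2 ^ J := by ring
  have h4 : 1 ≤ 2 ^ J := Nat.one_le_two_pow
  omega

/-- The exceptional `j` for the prime `p`. -/
def exc (k J p : ℕ) : Finset ℕ :=
  (Finset.Icc 1 J).filter fun j =>
    k < 2 ^ ex j ∧ 2 ^ (p + J + 2) < p ^ (2 ^ ex j - k).factorization p

lemma card_exc {k J p : ℕ} (hp : p.Prime) (hp2 : p ≠ 2) : (exc k J p).card ≤ 1 := by
  rw [Finset.card_le_one]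
  have key : ∀ i ∈ exc k J p, ∀ j ∈ exc k J p, i < j → False := by
    intro i hi j hj hij
    simp only [exc, Finset.mem_filter, Finset.mem_Icc] at hi hj
    obtain ⟨⟨hi1, hiJ⟩, hiN, hiv⟩ := hi
    obtain ⟨⟨hj1, hjJ⟩, hjN, hjv⟩ := hj
    obtain ⟨e, he, hei, hej⟩ : ∃ e, 2 ^ (p + J + 2) < p ^ e ∧ p ^ e ∣ 2 ^ ex i - k ∧
        p ^ e ∣ 2 ^ ex j - k := by
      rcases le_total ((2 ^ ex i - k).factorization p) ((2 ^ ex j - k).factorization p) with h | h
      · exact ⟨_, hiv, Nat.ordProj_dvd _ _, (pow_dvd_pow p h).trans (Nat.ordProj_dvd _ _)⟩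
      · exact ⟨_, hjv, (pow_dvd_pow p h).trans (Nat.ordProj_dvd _ _), Nat.ordProj_dvd _ _⟩
    have hlt := ex_lt hi1 hij
    have h1 : p ^ e ∣ 2 ^ ex j - 2 ^ ex i := by
      have h2 := Nat.dvd_sub hej hei
      have h3 : 2 ^ ex j - k - (2 ^ ex i - k) = 2 ^ ex j - 2 ^ ex i := by
        have : 2 ^ ex i ≤ 2 ^ ex j := Nat.pow_le_pow_right (by norm_num) hlt.le
        omega
      rwa [h3] at h2
    have h4 : 2 ^ ex j - 2 ^ ex i = 2 ^ ex i * (2 ^ (ex j - ex i) - 1) := by
      rw [Nat.mul_sub, ← pow_add, mul_one]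
      congr 2
      omega
    rw [h4] at h1
    have hc : Nat.Coprime (p ^ e) (2 ^ ex i) := by
      apply Nat.Coprime.pow
      rw [Nat.coprime_primes hp Nat.prime_two]
      exact hp2
    have h5 := hc.dvd_of_dvd_mul_left h1
    have h6 := pow_le_of_dvd hp hp2 (by omega) h5
    have h7 : ex j - ex i ≤ 2 ^ (J + 2) := (Nat.sub_le _ _).trans (ex_le hjJ)
    have h8 : 2 ^ p * (ex j - ex i) ≤ 2 ^ (p + J + 2) := by
      calc 2 ^ p * (ex j - ex i) ≤ 2 ^ p * 2 ^ (J + 2) := Nat.mul_le_mul_left _ h7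
        _ = 2 ^ (p + J + 2) := by rw [← pow_add]; rfl
    omega
  intro i hi j hj
  rcases lt_trichotomy i j with h | h | h
  · exact (key i hi j hj h).elim
  · exact h
  · exact (key j hj i hi h).elim

/-- The primes `p ≤ k` which do not divide `2 k`. -/
def bad (k : ℕ) : Finset ℕ := (Finset.range (k + 1)).filter fun p => p.Prime ∧ ¬ p ∣ 2 * k

/-- If `2^j k` is not a value and `j` is not exceptional for a prime `p ≤ k` not dividing `2 k`,
then `j` is small. -/
lemma small_of_not_value {k J j : ℕ} (hk : 1 ≤ k) (hJ : 1 ≤ J) (hj1 : 1 ≤ j) (hjJ : j ≤ J)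
    (hnot : ¬ ∃ n, 1 ≤ n ∧ a n = 2 ^ j * k)
    (hexc : ∀ p ∈ bad k, j ∉ exc k J p) :
    j ≤ Nat.log 2 J + ((k + 4) * k + 1) := by
  have hex : ex j ≤ (k + J + 3) * k := by
    by_cases hkN : k < 2 ^ ex j
    · set N := 2 ^ ex j - k with hN
      have hN0 : N ≠ 0 := by omega
      have hle : ∀ p ∈ N.primeFactors, p ≤ k := by
        intro p hp
        by_contra hcon
        push Not at hcon
        exact hnot (value_of_dvd hk hkN (Nat.prime_of_mem_primeFactors hp) hcon
          (Nat.dvd_of_mem_primeFactors hp))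
      have hpow : ∀ p ∈ N.primeFactors, p ^ N.factorization p ≤ 2 ^ (k + J + 2) := by
        intro p hp
        have hpp := Nat.prime_of_mem_primeFactors hp
        by_cases hp2 : p = 2
        · subst hp2
          have h1 : 2 ^ N.factorization 2 ∣ N := Nat.ordProj_dvd _ _
          have h2 : 2 ^ N.factorization 2 ≤ N := Nat.le_of_dvd (by omega) h1
          have h3 : 2 ^ N.factorization 2 < 2 ^ ex j := by omega
          have h4 : N.factorization 2 < ex j := (Nat.pow_lt_pow_iff_right (by norm_num)).mp h3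
          have h5 : 2 ^ N.factorization 2 ∣ 2 ^ ex j := pow_dvd_pow 2 h4.le
          have h6 : 2 ^ N.factorization 2 ∣ k := by
            have h7 : k = 2 ^ ex j - N := by omega
            rw [h7]
            exact Nat.dvd_sub h5 h1
          have h8 := Nat.le_of_dvd (by omega) h6
          have h9 : k < 2 ^ k := Nat.lt_two_pow_self
          have h10 : 2 ^ k ≤ 2 ^ (k + J + 2) := Nat.pow_le_pow_right (by norm_num) (by omega)
          omega
        · have hpk := hle p hp
          have hpN : p ∣ N := Nat.dvd_of_mem_primeFactors hp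
          have hp2' : ¬ p ∣ 2 := fun h => hp2 ((Nat.prime_dvd_prime_iff_eq hpp Nat.prime_two).mp h)
          have hpk' : ¬ p ∣ 2 * k := by
            intro h
            rcases (Nat.Prime.dvd_mul hpp).mp h with h0 | h0
            · exact hp2' h0
            · have h7 : 2 ^ ex j = N + k := by omega
              have h8 : p ∣ 2 ^ ex j := by
                rw [h7]
                exact Nat.dvd_add hpN h0
              exact hp2' (hpp.dvd_of_dvd_pow h8)
          have h1 := hexc p (by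
            rw [bad, Finset.mem_filter, Finset.mem_range]
            exact ⟨by omega, hpp, hpk'⟩)
          simp only [exc, Finset.mem_filter, Finset.mem_Icc, not_and, not_lt] at h1
          have h2 := h1 ⟨hj1, hjJ⟩ hkN
          exact h2.trans (Nat.pow_le_pow_right (by norm_num) (by omega))
      have hprod : N ≤ (2 ^ (k + J + 2)) ^ k := by
        have h1 : N = ∏ p ∈ N.primeFactors, p ^ N.factorization p :=
          (Nat.prod_factorization_pow_eq_self hN0).symm
        have hcard : N.primeFactors.card ≤ k := by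
          have hsub : N.primeFactors ⊆ Finset.Icc 1 k := by
            intro p hp
            rw [Finset.mem_Icc]
            exact ⟨(Nat.prime_of_mem_primeFactors hp).pos, hle p hp⟩
          calc N.primeFactors.card ≤ (Finset.Icc 1 k).card := Finset.card_le_card hsub
            _ = k := by simp
        calc N = ∏ p ∈ N.primeFactors, p ^ N.factorization p := h1
          _ ≤ ∏ _p ∈ N.primeFactors, 2 ^ (k + J + 2) := Finset.prod_le_prod' hpow
          _ = (2 ^ (k + J + 2)) ^ N.primeFactors.card := by rw [Finset.prod_const]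
          _ ≤ (2 ^ (k + J + 2)) ^ k := Nat.pow_le_pow_right (by positivity) hcard
      have h1 : 2 ^ ex j ≤ 2 ^ ((k + J + 3) * k) := by
        have h2 : 2 ^ ex j = N + k := by omega
        have h3 : (2 ^ (k + J + 2)) ^ k = 2 ^ ((k + J + 2) * k) := by rw [← pow_mul]
        have h4 : k + 1 ≤ 2 ^ k := Nat.lt_two_pow_self
        have h5 : 1 ≤ 2 ^ ((k + J + 2) * k) := Nat.one_le_two_pow
        have h6 : 2 ^ ((k + J + 3) * k) = 2 ^ ((k + J + 2) * k) * 2 ^ k := by
          rw [← pow_add]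
          congr 1
          ring
        rw [h2, h6]
        calc N + k ≤ 2 ^ ((k + J + 2) * k) + 2 ^ ((k + J + 2) * k) * k := by
              apply Nat.add_le_add
              · rw [← h3]; exact hprod
              · exact Nat.le_mul_of_pos_left k h5
          _ = 2 ^ ((k + J + 2) * k) * (k + 1) := by ring
          _ ≤ 2 ^ ((k + J + 2) * k) * 2 ^ k := Nat.mul_le_mul_left _ h4
      exact (Nat.pow_le_pow_iff_right (by norm_num)).mp h1
    · push Not at hkN
      have h1 : ex j < 2 ^ ex j := Nat.lt_two_pow_self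
      have h2 : k ≤ (k + J + 3) * k := Nat.le_mul_of_pos_left k (by omega)
      omega
  have h1 := half_lt_ex hj1
  have h2 : (k + J + 3) * k ≤ J * ((k + 4) * k) := by
    have : k + J + 3 ≤ J * (k + 4) := by nlinarith
    calc (k + J + 3) * k ≤ (J * (k + 4)) * k := Nat.mul_le_mul_right _ this
      _ = J * ((k + 4) * k) := by ring
  have h3 : J < 2 ^ (Nat.log 2 J + 1) := Nat.lt_pow_succ_log_self (by norm_num) J
  have h4 : (k + 4) * k < 2 ^ ((k + 4) * k) := Nat.lt_two_pow_self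
  have h5 : 2 ^ (j - 1) < 2 ^ (Nat.log 2 J + 1 + (k + 4) * k) := by
    calc 2 ^ (j - 1) < ex j := h1
      _ ≤ (k + J + 3) * k := hex
      _ ≤ J * ((k + 4) * k) := h2
      _ ≤ 2 ^ (Nat.log 2 J + 1) * 2 ^ ((k + 4) * k) := Nat.mul_le_mul h3.le h4.le
      _ = 2 ^ (Nat.log 2 J + 1 + (k + 4) * k) := by rw [← pow_add]
  have h6 := (Nat.pow_lt_pow_iff_right (by norm_num : 1 < 2)).mp h5
  omega

/-- **Theorem.** Let `k ≥ 1` and `J ≥ 1`. For all exponents `j` with
`log₂ J + k² + 4 k + 1 < j ≤ J` the number `2^j k` is of the form `2^(n+2) mod n`, `n ≥ 1`, with at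
most as many exceptions as there are primes `p ≤ k` not dividing `2 k`. -/
theorem result (k J : ℕ) (hk : 1 ≤ k) (hJ : 1 ≤ J) :
    {j : ℕ | Nat.log 2 J + (k ^ 2 + 4 * k + 1) < j ∧ j ≤ J ∧
      ¬ ∃ n, 1 ≤ n ∧ a n = 2 ^ j * k}.ncard ≤
    ((Finset.range (k + 1)).filter fun p => p.Prime ∧ ¬ p ∣ 2 * k).card := by
  have hsub : {j : ℕ | Nat.log 2 J + (k ^ 2 + 4 * k + 1) < j ∧ j ≤ J ∧
      ¬ ∃ n, 1 ≤ n ∧ a n = 2 ^ j * k} ⊆ ((bad k).biUnion (exc k J) : Finset ℕ) := by
    intro j hj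
    obtain ⟨hjC, hjJ, hnot⟩ := hj
    rw [Finset.mem_coe, Finset.mem_biUnion]
    by_contra h
    push Not at h
    have h1 := small_of_not_value hk hJ (by omega) hjJ hnot h
    have h2 : (k + 4) * k = k ^ 2 + 4 * k := by ring
    omega
  calc {j : ℕ | Nat.log 2 J + (k ^ 2 + 4 * k + 1) < j ∧ j ≤ J ∧
        ¬ ∃ n, 1 ≤ n ∧ a n = 2 ^ j * k}.ncard
      ≤ (((bad k).biUnion (exc k J) : Finset ℕ) : Set ℕ).ncard :=
        Set.ncard_le_ncard hsub (Finset.finite_toSet _)
    _ = ((bad k).biUnion (exc k J)).card := Set.ncard_coe_finset _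
    _ ≤ (bad k).card * 1 := by
        apply Finset.card_biUnion_le_card_mul
        intro p hp
        rw [bad, Finset.mem_filter] at hp
        refine card_exc hp.2.1 ?_
        rintro rfl
        exact hp.2.2 (dvd_mul_right 2 k)
    _ = ((Finset.range (k + 1)).filter fun p => p.Prime ∧ ¬ p ∣ 2 * k).card := by
        rw [mul_one, bad]

end Pool.Agent.Results.MP_3e329f_nt.PowerOfTwoMultiples
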