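import Pool.Agent.Lib.MP_3e329f_nt.ApLow
import Pool.Agent.Lib.MP_3e329f_nt.Bv

set_option autoImplicit false

/-!
# Values of `2^(n+2) mod n` in every residue class

For every modulus `M ≥ 1` and every residue `r` there is `δ > 0` such that for all large `X` at
least `δ X / log X` of the integers `0 ≤ k < X` with `k ≡ r (mod M)` are of the form
`2^(n+2) mod n`, `n ≥ 1`.

Construction (helper52): take a prime `m > M + 3`, choose `1 ≤ c ≤ M` with
`c ≡ 2^(m+2) - r (mod M)`, and a large prime `p` with `p ≡ -1 (mod M (m-1))` and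
`c p ≡ -6 (mod m)`. Then for `n = m p` one has `2^(n+2) mod n = 2^(m+2) + c p`. The number of these
`p` up to `Y` is at least a constant times `Y / log Y`.
-/

namespace Pool.Agent.Results.MP_3e329f_nt.ResidueClassCount

open Filter

/-- `a(n) = 2^(n+2) mod n`, the least nonnegative remainder. -/
def a (n : ℕ) : ℕ := 2 ^ (n + 2) % n

/-- **Theorem.** For every `M ≥ 1` and every `r` there is `δ > 0` such that for all large `X` at
least `δ X / log X` of the integers `k < X` with `k ≡ r (mod M)` are values of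
`n ↦ 2^(n+2) mod n`, `n ≥ 1`. -/
theorem result (M : ℕ) (hM : 1 ≤ M) (r : ℕ) : ∃ δ : ℝ, 0 < δ ∧ ∀ᶠ X : ℕ in atTop,
    δ * X / Real.log X ≤
      ({k : ℕ | k < X ∧ k ≡ r [MOD M] ∧ ∃ n : ℕ, 1 ≤ n ∧ a n = k}.ncard : ℝ) := by
  classical
  obtain ⟨δ, hδ, h⟩ := Pool.Agent.Lib.MP_3e329f_nt.res_count Pool.Agent.Lib.MP_3e329f_nt.h_BV
    Pool.Agent.Lib.MP_3e329f_nt.h_m1 Pool.Agent.Lib.MP_3e329f_nt.h_mu M r hM
  refine ⟨δ, hδ, ?_⟩
  filter_upwards [h] with X hX
  have h5 : {k : ℕ | k < X ∧ k ≡ r [MOD M] ∧ ∃ n : ℕ, 1 ≤ n ∧ a n = k} =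
      ((Pool.Agent.Lib.MP_3e329f_nt.VR X M r : Finset ℕ) : Set ℕ) := by
    ext k
    rw [Finset.mem_coe, Pool.Agent.Lib.MP_3e329f_nt.VR, Finset.mem_filter, Finset.mem_range]
    rfl
  rw [h5, Set.ncard_coe_finset]
  exact hX

end Pool.Agent.Results.MP_3e329f_nt.ResidueClassCount
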