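import Pool.Agent.Lib.MP_3e329f_nt.AssembleU
import Pool.Agent.Lib.MP_3e329f_nt.GoldU
import Pool.Agent.Lib.MP_3e329f_nt.SieveU
import Pool.Agent.Lib.MP_3e329f_nt.ParamsU
import Pool.Agent.Lib.MP_3e329f_nt.Bv

set_option autoImplicit false

/-!
# Values of `2^(n+2) mod n` in short intervals

There is a constant `c < 1/2` with the following property. For every `N` there are `C`, `B` such
that for all large `X` and all `H` with `C X / log X ≤ H ≤ X` at least `H / (log X)^c` of the
integers `k` in `[X, X + H)` are of the form `2^(n+2) mod n` for at least `N` integers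
`1 ≤ n ≤ X^B`.

Idea. Call `m` good if `m ∣ 2^(m+2) (2^m - 1)`; this is so if `p - 1 ∣ m` for every prime `p ∣ m`.
If `m` is good, `k ≡ 2^(m+2) (mod m)` and `p > k / m` is a prime factor of `2^(m+2) - k` not
dividing `m`, then `n = m p` has `2^(n+2) mod n = k`. For the `k` of `[X, X + H)` in the residue
class of `2^(m+2)` modulo `m` the numbers `(2^(m+2) - k) / m` are `H/m` consecutive integers of size
about `2^m`; if `m` is at least a large multiple of `log X` and `H` at least a large multiple of
`X / log X`, then only a small proportion of them has all prime factors `≤ 2X/m` (the product of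
these numbers divides `h!` times a binomial coefficient, whose prime power factors are at most
`2^(m+2)`). Let `T` be a set of primes `q ≤ z` for which all prime factors of `q - 1` are at most
`v = z^u`, and let `P` be the product of all primes `≤ v`. Then `m = 2^j P^a ∏_{q ∈ S} q` is
good for every subset `S` of `T`, every `j` and `a = log z / log 2`. If `z` is a little less than
`(log log X)^(1/u)`, then `P^a` is only `(log X)^(o(1))`. By Goldfeld's argument (the
Bombieri-Vinogradov theorem and an upper bound sieve) there is `u < 1/2` such that a positive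
proportion of the primes `≤ z` can be taken for `T`; so there are `(log X)^(1-u-ε)` such `m` of size
about `C' log X`, with sets `S` of the same number of elements. If one keeps only those `k` for
which `k - 4` is not divisible by the primes of `T` outside `S`, then the sets of values for
different `S` are disjoint. Finally, with `m = 2^N w` all the moduli `2^i w`, `i < N`, can be used
for the same `k`.
-/

namespace Pool.Agent.Results.MP_3e329f_nt.ShortIntervalCount

open Filter

/-- `a(n) = 2^(n+2) mod n`, the least nonnegative remainder. -/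
def a (n : ℕ) : ℕ := 2 ^ (n + 2) % n

/-- **Theorem.** There is `c < 1/2` such that for every `N` there are `C` and `B` such that for all
large `X` and all integers `H` with `C X / log X ≤ H ≤ X`, at least `H / (log X)^c` of the integers
`X ≤ k < X + H` are of the form `k = 2^(n+2) mod n` for at least `N` integers `1 ≤ n ≤ X^B`. -/
theorem result : ∃ c : ℝ, c < 1 / 2 ∧ ∀ N : ℕ, ∃ (C : ℝ) (B : ℕ), ∀ᶠ X : ℕ in atTop,
    ∀ H : ℕ, C * X / Real.log X ≤ H → H ≤ X →
    (H : ℝ) / Real.log X ^ c ≤
      ({k : ℕ | X ≤ k ∧ k < X + H ∧ ∃ F : Finset ℕ, F.card = N ∧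
        ∀ n ∈ F, 1 ≤ n ∧ n ≤ X ^ B ∧ a n = k}.ncard : ℝ) := by
  classical
  obtain ⟨u, hu0, hu1, hu⟩ := Pool.Agent.Lib.MP_3e329f_nt.smoothShiftU
    Pool.Agent.Lib.MP_3e329f_nt.h_BV Pool.Agent.Lib.MP_3e329f_nt.h_m1
    Pool.Agent.Lib.MP_3e329f_nt.h_mu Pool.Agent.Lib.MP_3e329f_nt.sieveU
  refine ⟨u + (1 / 2 - u) / 2, by linarith, fun N => ?_⟩
  obtain ⟨C, B, h1⟩ := Pool.Agent.Lib.MP_3e329f_nt.Short.main_count u (by linarith) hu1.le
    (Pool.Agent.Lib.MP_3e329f_nt.paramsU u hu0 hu1.le hu) ((1 / 2 - u) / 2) (by linarith) N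
  refine ⟨C, B, ?_⟩
  filter_upwards [h1] with X hX H hH1 hH2
  have h5 : {k : ℕ | X ≤ k ∧ k < X + H ∧ ∃ F : Finset ℕ, F.card = N ∧
        ∀ n ∈ F, 1 ≤ n ∧ n ≤ X ^ B ∧ a n = k} =
      ((Pool.Agent.Lib.MP_3e329f_nt.Short.V N (X ^ B) X H : Finset ℕ) : Set ℕ) := by
    ext k
    rw [Finset.mem_coe, Pool.Agent.Lib.MP_3e329f_nt.Short.V, Finset.mem_filter, Finset.mem_Ico]
    exact and_assoc.symm
  rw [h5, Set.ncard_coe_finset]
  exact hX H hH2 hH1

end Pool.Agent.Results.MP_3e329f_nt.ShortIntervalCount
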